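import Pool.Agent.Lib.helper3.BanachLim

namespace Pool.Agent.Results.MP_f651fd_an.NoCompact

open Pool.Agent.Lib.helper3.BanachLim

/-- On an infinite-dimensional complex Hilbert space no `L`-asymptotic limit of a power bounded
operator is both injective and compact. -/
theorem result (H : Type*) [NormedAddCommGroup H] [InnerProductSpace ℂ H] [CompleteSpace H]
    (hH : ¬ FiniteDimensional ℂ H) (L : Linf →ₗ[ℂ] ℂ) (hL : IsBanachLimit L)
    (T A : H →L[ℂ] H) (hT : PowerBounded T) (hA : IsAsympLimit L T A) :
    ¬ (Function.Injective A ∧ IsCompactOperator A) :=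
  fun h => hH (finiteDimensional_of_compact_injective hL hT hA h.1 h.2)

end Pool.Agent.Results.MP_f651fd_an.NoCompact
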